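import Mathlib

/-!
The kernel identity for the logarithm on an arc (MP_ff60c2_an).
-/

set_option autoImplicit false

namespace Pool.Agent.H58.EH

open Real MeasureTheory Set Filter
open scoped Topology Interval

/-- `|r + t e^{iφ}|²`. -/
noncomputable def dd (r t φ : ℝ) : ℝ := r ^ 2 + t ^ 2 + 2 * r * t * cos φ

/-- `∫_{-ψ}^{ψ} log |r + t e^{iφ}| dφ`. -/
noncomputable def J (r ψ t : ℝ) : ℝ := ∫ φ in (-ψ)..ψ, (1 / 2) * log (dd r t φ)

/-- `t J'(t)`. -/
noncomputable def AA (r ψ t : ℝ) : ℝ := ∫ φ in (-ψ)..ψ, (t ^ 2 + r * t * cos φ) / dd r t φ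

/-- The kernel. -/
noncomputable def kk (r ψ x : ℝ) : ℝ := 2 * r * sin ψ / dd r x ψ

theorem cos_gt {φ ψ : ℝ} (hψ : ψ < π) (hφ : |φ| ≤ ψ) : -1 < cos φ := by
  rw [← cos_abs]
  have h1 : cos π < cos |φ| :=
    cos_lt_cos_of_nonneg_of_le_pi (abs_nonneg _) le_rfl (lt_of_le_of_lt hφ hψ)
  simpa using h1

theorem dd_pos {r t φ ψ : ℝ} (hr : 0 < r) (ht : 0 ≤ t) (hψ : ψ < π) (hφ : |φ| ≤ ψ) :
    0 < dd r t φ := by
  have hc := cos_gt hψ hφ
  unfold dd
  rcases ht.eq_or_lt with h | h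
  · rw [← h]; have := pow_pos hr 2; nlinarith
  · have h2 : 0 < r * t := mul_pos hr h
    nlinarith [sq_nonneg (t - r), mul_pos h2 (by linarith : 0 < 1 + cos φ)]

theorem continuous_dd : Continuous fun p : ℝ × ℝ × ℝ => dd p.1 p.2.1 p.2.2 := by
  unfold dd; fun_prop

/-- Differentiation under the integral sign on a rectangle. -/
theorem hasDerivAt_param {F F' : ℝ → ℝ → ℝ} {a b t0 δ : ℝ} (hab : a ≤ b) (hδ : 0 < δ)
    (hF : ContinuousOn (fun p : ℝ × ℝ => F p.1 p.2) (Icc (t0 - δ) (t0 + δ) ×ˢ Icc a b))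
    (hF' : ContinuousOn (fun p : ℝ × ℝ => F' p.1 p.2) (Icc (t0 - δ) (t0 + δ) ×ˢ Icc a b))
    (hd : ∀ t ∈ Icc (t0 - δ) (t0 + δ), ∀ φ ∈ Icc a b, HasDerivAt (fun s => F s φ) (F' t φ) t) :
    HasDerivAt (fun t => ∫ φ in a..b, F t φ) (∫ φ in a..b, F' t0 φ) t0 := by
  have hK : IsCompact (Icc (t0 - δ) (t0 + δ) ×ˢ Icc a b) := isCompact_Icc.prod isCompact_Icc
  obtain ⟨C, hC⟩ := hK.exists_bound_of_continuousOn hF'
  have hsl : ∀ {G : ℝ → ℝ → ℝ},
      ContinuousOn (fun p : ℝ × ℝ => G p.1 p.2) (Icc (t0 - δ) (t0 + δ) ×ˢ Icc a b) →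
      ∀ t ∈ Icc (t0 - δ) (t0 + δ), ContinuousOn (G t) (Icc a b) := by
    intro G hG t ht
    exact hG.comp (f := fun φ : ℝ => (t, φ)) (by fun_prop) (fun φ hφ => ⟨ht, hφ⟩)
  have hnb : Icc (t0 - δ) (t0 + δ) ∈ 𝓝 t0 := Icc_mem_nhds (by linarith) (by linarith)
  have hae : ∀ {G : ℝ → ℝ}, ContinuousOn G (Icc a b) →
      AEStronglyMeasurable G (volume.restrict (Ι a b)) := by
    intro G hG
    rw [uIoc_of_le hab]
    exact (hG.mono Ioc_subset_Icc_self).aestronglyMeasurable measurableSet_Ioc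
  refine (intervalIntegral.hasDerivAt_integral_of_dominated_loc_of_deriv_le (μ := volume)
    (F := F) (F' := F') (x₀ := t0) (s := Icc (t0 - δ) (t0 + δ)) (bound := fun _ => C)
    hnb ?_ ?_ ?_ ?_ ?_ ?_).2
  · filter_upwards [hnb] with t ht using hae (hsl hF t ht)
  · exact (hsl hF t0 ⟨by linarith, by linarith⟩).intervalIntegrable_of_Icc hab
  · exact hae (hsl hF' t0 ⟨by linarith, by linarith⟩)
  · refine Eventually.of_forall fun φ hφ t ht => hC (t, φ) ⟨ht, ?_⟩
    rw [uIoc_of_le hab] at hφ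
    exact Ioc_subset_Icc_self hφ
  · exact intervalIntegrable_const
  · refine Eventually.of_forall fun φ hφ t ht => hd t ht φ ?_
    rw [uIoc_of_le hab] at hφ
    exact Ioc_subset_Icc_self hφ

/-- Continuity of a parametric integral on a rectangle. -/
theorem continuousOn_param {F : ℝ → ℝ → ℝ} {a b c d : ℝ} (hab : a ≤ b)
    (hF : ContinuousOn (fun p : ℝ × ℝ => F p.1 p.2) (Icc c d ×ˢ Icc a b)) :
    ContinuousOn (fun t => ∫ φ in a..b, F t φ) (Icc c d) := by
  have hK : IsCompact (Icc c d ×ˢ Icc a b) := isCompact_Icc.prod isCompact_Icc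
  obtain ⟨C, hC⟩ := hK.exists_bound_of_continuousOn hF
  intro t0 ht0
  refine intervalIntegral.continuousWithinAt_of_dominated_interval (bound := fun _ => C) ?_ ?_ ?_ ?_
  · filter_upwards [self_mem_nhdsWithin] with t ht
    rw [uIoc_of_le hab]
    have h1 : ContinuousOn (F t) (Icc a b) :=
      hF.comp (f := fun φ : ℝ => (t, φ)) (by fun_prop) (fun φ hφ => ⟨ht, hφ⟩)
    exact (h1.mono Ioc_subset_Icc_self).aestronglyMeasurable measurableSet_Ioc
  · filter_upwards [self_mem_nhdsWithin] with t ht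
    refine Eventually.of_forall fun φ hφ => hC (t, φ) ⟨ht, ?_⟩
    rw [uIoc_of_le hab] at hφ
    exact Ioc_subset_Icc_self hφ
  · exact intervalIntegrable_const
  · refine Eventually.of_forall fun φ hφ => ?_
    rw [uIoc_of_le hab] at hφ
    have h1 : ContinuousWithinAt (fun p : ℝ × ℝ => F p.1 p.2) (Icc c d ×ˢ Icc a b) (t0, φ) :=
      hF (t0, φ) ⟨ht0, Ioc_subset_Icc_self hφ⟩
    exact h1.comp (f := fun t : ℝ => (t, φ)) (by fun_prop)
      (fun t ht => ⟨ht, Ioc_subset_Icc_self hφ⟩)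

section

variable {r ψ : ℝ}

theorem hasDerivAt_J (hr : 0 < r) (h0 : 0 < ψ) (hψ : ψ < π) {t : ℝ} (ht : 0 < t) :
    HasDerivAt (J r ψ) (AA r ψ t / t) t := by
  have hne : ∀ s ∈ Icc (t - t / 2) (t + t / 2), ∀ φ ∈ Icc (-ψ) ψ, dd r s φ ≠ 0 := by
    intro s hs φ hφ
    exact (dd_pos hr (by linarith [hs.1]) hψ (abs_le.2 hφ)).ne'
  have h := hasDerivAt_param (F := fun t φ => (1 / 2) * log (dd r t φ))
    (F' := fun t φ => (t + r * cos φ) / dd r t φ) (a := -ψ) (b := ψ) (t0 := t) (δ := t / 2)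
    (by linarith) (by linarith) ?_ ?_ ?_
  · have e : AA r ψ t / t = ∫ φ in (-ψ)..ψ, (t + r * cos φ) / dd r t φ := by
      unfold AA
      rw [← intervalIntegral.integral_div]
      refine intervalIntegral.integral_congr fun φ hφ => ?_
      rw [uIcc_of_le (by linarith)] at hφ
      have h2 := hne t ⟨by linarith, by linarith⟩ φ hφ
      have h3 := ht.ne'
      change (t ^ 2 + r * t * cos φ) / dd r t φ / t = (t + r * cos φ) / dd r t φ
      field_simp
    rw [e]
    exact h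
  · refine ContinuousOn.mul continuousOn_const (ContinuousOn.log ?_ ?_)
    · unfold dd; fun_prop
    · rintro ⟨s, φ⟩ ⟨hs, hφ⟩
      exact hne s hs φ hφ
  · refine ContinuousOn.div (by fun_prop) ?_ ?_
    · unfold dd; fun_prop
    · rintro ⟨s, φ⟩ ⟨hs, hφ⟩
      exact hne s hs φ hφ
  · intro s hs φ hφ
    have hd : HasDerivAt (fun s => dd r s φ) (2 * s + 2 * r * cos φ) s := by
      unfold dd
      have h1 : HasDerivAt (fun s : ℝ => s ^ 2) (2 * s) s := by simpa using hasDerivAt_pow 2 s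
      have h2 : HasDerivAt (fun s : ℝ => 2 * r * s * cos φ) (2 * r * cos φ) s := by
        have := ((hasDerivAt_id s).const_mul (2 * r)).mul_const (cos φ)
        simpa using this
      exact ((h1.const_add (r ^ 2)).add h2)
    exact ((hd.log (hne s hs φ hφ)).const_mul (1 / 2 : ℝ)).congr_deriv (by ring)

theorem hasDerivAt_AA (hr : 0 < r) (h0 : 0 < ψ) (hψ : ψ < π) {t : ℝ} (ht : 0 < t) :
    HasDerivAt (AA r ψ) (kk r ψ t) t := by
  have hne : ∀ s ∈ Icc (t - t / 2) (t + t / 2), ∀ φ ∈ Icc (-ψ) ψ, dd r s φ ≠ 0 := by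
    intro s hs φ hφ
    exact (dd_pos hr (by linarith [hs.1]) hψ (abs_le.2 hφ)).ne'
  have h := hasDerivAt_param (F := fun t φ => (t ^ 2 + r * t * cos φ) / dd r t φ)
    (F' := fun t φ => r * ((r ^ 2 + t ^ 2) * cos φ + 2 * r * t) / dd r t φ ^ 2)
    (a := -ψ) (b := ψ) (t0 := t) (δ := t / 2) (by linarith) (by linarith) ?_ ?_ ?_
  · have e : kk r ψ t =
        ∫ φ in (-ψ)..ψ, r * ((r ^ 2 + t ^ 2) * cos φ + 2 * r * t) / dd r t φ ^ 2 := by
      have hne' : ∀ φ ∈ uIcc (-ψ) ψ, dd r t φ ≠ 0 := by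
        intro φ hφ
        rw [uIcc_of_le (by linarith)] at hφ
        exact hne t ⟨by linarith, by linarith⟩ φ hφ
      rw [intervalIntegral.integral_eq_sub_of_hasDerivAt (f := fun φ => r * sin φ / dd r t φ)]
      · have hev : dd r t (-ψ) = dd r t ψ := by unfold dd; rw [cos_neg]
        rw [hev, sin_neg]
        unfold kk
        ring
      · intro φ hφ
        have hd : HasDerivAt (fun φ => dd r t φ) (-(2 * r * t * sin φ)) φ := by
          unfold dd
          exact (((hasDerivAt_cos φ).const_mul (2 * r * t)).const_add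
            (r ^ 2 + t ^ 2)).congr_deriv (by ring)
        refine (((hasDerivAt_sin φ).const_mul r).div hd (hne' φ hφ)).congr_deriv ?_
        have hs : sin φ ^ 2 = 1 - cos φ ^ 2 := sin_sq φ
        have e2 : r * cos φ * dd r t φ - r * sin φ * -(2 * r * t * sin φ) =
            r * ((r ^ 2 + t ^ 2) * cos φ + 2 * r * t) := by
          unfold dd
          linear_combination (2 * r ^ 2 * t) * hs
        rw [e2]
      · apply ContinuousOn.intervalIntegrable
        refine ContinuousOn.div (by fun_prop) ?_ ?_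
        · unfold dd; fun_prop
        · intro φ hφ
          exact pow_ne_zero 2 (hne' φ hφ)
    rw [e]
    exact h
  · refine ContinuousOn.div (by fun_prop) ?_ ?_
    · unfold dd; fun_prop
    · rintro ⟨s, φ⟩ ⟨hs, hφ⟩
      exact hne s hs φ hφ
  · refine ContinuousOn.div (by fun_prop) ?_ ?_
    · unfold dd; fun_prop
    · rintro ⟨s, φ⟩ ⟨hs, hφ⟩
      exact pow_ne_zero 2 (hne s hs φ hφ)
  · intro s hs φ hφ
    have hd : HasDerivAt (fun s => dd r s φ) (2 * s + 2 * r * cos φ) s := by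
      unfold dd
      have h1 : HasDerivAt (fun s : ℝ => s ^ 2) (2 * s) s := by simpa using hasDerivAt_pow 2 s
      have h2 : HasDerivAt (fun s : ℝ => 2 * r * s * cos φ) (2 * r * cos φ) s := by
        have := ((hasDerivAt_id s).const_mul (2 * r)).mul_const (cos φ)
        simpa using this
      exact ((h1.const_add (r ^ 2)).add h2)
    have hn : HasDerivAt (fun s : ℝ => s ^ 2 + r * s * cos φ) (2 * s + r * cos φ) s := by
      have h1 : HasDerivAt (fun s : ℝ => s ^ 2) (2 * s) s := by simpa using hasDerivAt_pow 2 s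
      have h2 : HasDerivAt (fun s : ℝ => r * s * cos φ) (r * cos φ) s := by
        have := ((hasDerivAt_id s).const_mul r).mul_const (cos φ)
        simpa using this
      exact h1.add h2
    refine (hn.div hd (hne s hs φ hφ)).congr_deriv ?_
    have e2 : (2 * s + r * cos φ) * dd r s φ - (s ^ 2 + r * s * cos φ) * (2 * s + 2 * r * cos φ) =
        r * ((r ^ 2 + s ^ 2) * cos φ + 2 * r * s) := by
      unfold dd
      ring
    rw [e2]

theorem continuousOn_J (hr : 0 < r) (h0 : 0 < ψ) (hψ : ψ < π) (T : ℝ) :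
    ContinuousOn (J r ψ) (Icc 0 T) := by
  refine continuousOn_param (F := fun t φ => (1 / 2) * log (dd r t φ)) (by linarith) ?_
  refine ContinuousOn.mul continuousOn_const (ContinuousOn.log ?_ ?_)
  · unfold dd; fun_prop
  · rintro ⟨s, φ⟩ ⟨hs, hφ⟩
    exact (dd_pos hr hs.1 hψ (abs_le.2 hφ)).ne'

theorem continuousOn_AA (hr : 0 < r) (h0 : 0 < ψ) (hψ : ψ < π) (T : ℝ) :
    ContinuousOn (AA r ψ) (Icc 0 T) := by
  refine continuousOn_param (F := fun t φ => (t ^ 2 + r * t * cos φ) / dd r t φ) (by linarith) ?_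
  refine ContinuousOn.div (by fun_prop) ?_ ?_
  · unfold dd; fun_prop
  · rintro ⟨s, φ⟩ ⟨hs, hφ⟩
    exact (dd_pos hr hs.1 hψ (abs_le.2 hφ)).ne'

theorem dd_pos_end (hr : 0 < r) (h0 : 0 < ψ) (hψ : ψ < π) {x : ℝ} (hx : 0 ≤ x) :
    0 < dd r x ψ := dd_pos hr hx hψ (by rw [abs_of_pos h0])

theorem kk_nonneg (hr : 0 < r) (h0 : 0 < ψ) (hψ : ψ < π) {x : ℝ} (hx : 0 ≤ x) :
    0 ≤ kk r ψ x := by
  unfold kk
  have := dd_pos_end hr h0 hψ hx
  have := sin_pos_of_pos_of_lt_pi h0 hψ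
  positivity

theorem continuousOn_kk (hr : 0 < r) (h0 : 0 < ψ) (hψ : ψ < π) :
    ContinuousOn (kk r ψ) (Ici 0) := by
  unfold kk
  refine ContinuousOn.div (by fun_prop) ?_ ?_
  · unfold dd; fun_prop
  · intro x hx
    exact (dd_pos_end hr h0 hψ hx).ne'

theorem kk_intervalIntegrable (hr : 0 < r) (h0 : 0 < ψ) (hψ : ψ < π) {a b : ℝ} (ha : 0 ≤ a)
    (hb : 0 ≤ b) : IntervalIntegrable (kk r ψ) volume a b := by
  refine ((continuousOn_kk hr h0 hψ).mono ?_).intervalIntegrable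
  intro x hx
  rcases le_total a b with h | h
  · rw [uIcc_of_le h] at hx; exact ha.trans hx.1
  · rw [uIcc_of_ge h] at hx; exact hb.trans hx.1

theorem AA_zero : AA r ψ 0 = 0 := by
  unfold AA; simp

theorem J_zero (hr : 0 < r) : J r ψ 0 = 2 * ψ * log r := by
  unfold J dd
  simp only [ne_eq, OfNat.ofNat_ne_zero, not_false_eq_true, zero_pow, add_zero, mul_zero, zero_mul,
    intervalIntegral.integral_const, smul_eq_mul, log_pow, Nat.cast_ofNat]
  ring

theorem AA_eq (hr : 0 < r) (h0 : 0 < ψ) (hψ : ψ < π) {t : ℝ} (ht : 0 ≤ t) :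
    AA r ψ t = ∫ x in (0:ℝ)..t, kk r ψ x := by
  rw [intervalIntegral.integral_eq_sub_of_hasDerivAt_of_le ht (continuousOn_AA hr h0 hψ t)
    (fun x hx => hasDerivAt_AA hr h0 hψ hx.1) (kk_intervalIntegrable hr h0 hψ le_rfl ht), AA_zero,
    sub_zero]

end

end Pool.Agent.H58.EH
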