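import Mathlib
import Pool.Agent.H58.EH.Kern

/-!
The kernel identity for the logarithm on an arc, integral form (MP_ff60c2_an).
-/

set_option autoImplicit false

namespace Pool.Agent.H58.EH

open Real MeasureTheory Set Filter
open scoped Topology Interval

variable {r ψ : ℝ}

theorem AA_bound (hr : 0 < r) (h0 : 0 < ψ) (hψ : ψ < π) (T : ℝ) :
    ∃ C, ∀ t ∈ Icc 0 T, |AA r ψ t| ≤ C * t := by
  obtain ⟨C, hC⟩ := (isCompact_Icc (a := (0:ℝ)) (b := T)).exists_bound_of_continuousOn
    ((continuousOn_kk hr h0 hψ).mono fun x hx => hx.1)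
  refine ⟨C, fun t ht => ?_⟩
  rw [AA_eq hr h0 hψ ht.1]
  have := intervalIntegral.norm_integral_le_of_norm_le_const (a := 0) (b := t)
    (f := kk r ψ) (C := C) (fun x hx => by
      rw [uIoc_of_le ht.1] at hx
      exact hC x ⟨hx.1.le, hx.2.trans ht.2⟩)
  rw [sub_zero, abs_of_nonneg ht.1] at this
  exact this

theorem intervalIntegrable_log_kk (hr : 0 < r) (h0 : 0 < ψ) (hψ : ψ < π) {a b : ℝ} (ha : 0 ≤ a)
    (hb : 0 ≤ b) : IntervalIntegrable (fun x => log x * kk r ψ x) volume a b := by
  refine intervalIntegral.intervalIntegrable_log'.mul_continuousOn ?_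
  refine (continuousOn_kk hr h0 hψ).mono ?_
  intro x hx
  rcases le_total a b with h | h
  · rw [uIcc_of_le h] at hx; exact ha.trans hx.1
  · rw [uIcc_of_ge h] at hx; exact hb.trans hx.1

theorem J_eq_log (hr : 0 < r) (h0 : 0 < ψ) (hψ : ψ < π) {t : ℝ} (ht : 0 < t) :
    J r ψ t = 2 * ψ * log r + ∫ x in (0:ℝ)..t, (log t - log x) * kk r ψ x := by
  have hint : IntegrableOn (fun x => log x * kk r ψ x) (uIcc 0 t) volume := by
    have := intervalIntegrable_log_kk hr h0 hψ (le_refl (0:ℝ)) ht.le
    rw [intervalIntegrable_iff_integrableOn_Icc_of_le ht.le] at this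
    rwa [uIcc_of_le ht.le]
  have hkey := intervalIntegral.integral_eq_sub_of_hasDerivAt_of_le (a := 0) (b := t)
    (f := fun s => J r ψ s - log s * AA r ψ s + ∫ x in (0:ℝ)..s, log x * kk r ψ x)
    (f' := fun _ => 0) ht.le ?_ ?_ ?_
  · rw [intervalIntegral.integral_zero] at hkey
    have e1 : (∫ x in (0:ℝ)..t, (log t - log x) * kk r ψ x) =
        log t * AA r ψ t - ∫ x in (0:ℝ)..t, log x * kk r ψ x := by
      rw [AA_eq hr h0 hψ ht.le, ← intervalIntegral.integral_const_mul,
        ← intervalIntegral.integral_sub]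
      · refine intervalIntegral.integral_congr fun x _ => ?_
        ring
      · exact (kk_intervalIntegrable hr h0 hψ le_rfl ht.le).const_mul _
      · exact intervalIntegrable_log_kk hr h0 hψ le_rfl ht.le
    rw [e1]
    simp only [log_zero, zero_mul, sub_zero, intervalIntegral.integral_same, add_zero] at hkey
    rw [J_zero hr] at hkey
    linarith
  · refine ContinuousOn.add (ContinuousOn.sub (continuousOn_J hr h0 hψ t) ?_) ?_
    · obtain ⟨C, hC⟩ := AA_bound hr h0 hψ t
      intro s hs
      rcases hs.1.eq_or_lt with h | h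
      · have hz : log s * AA r ψ s = 0 := by rw [← h]; simp
        unfold ContinuousWithinAt
        change Tendsto (fun s => log s * AA r ψ s) (𝓝[Icc 0 t] s) (𝓝 (log s * AA r ψ s))
        rw [hz]
        have h1 : Tendsto (fun s : ℝ => C * |s * log s|) (𝓝[Icc 0 t] s) (𝓝 0) := by
          have h2 : Continuous fun s : ℝ => C * |s * log s| :=
            continuous_const.mul continuous_mul_log.abs
          have h3 := h2.tendsto s
          have h4 : C * |s * log s| = 0 := by rw [← h]; simp
          rw [h4] at h3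
          exact h3.mono_left nhdsWithin_le_nhds
        refine squeeze_zero_norm' ?_ h1
        filter_upwards [self_mem_nhdsWithin] with x hx
        rw [norm_mul, Real.norm_eq_abs, Real.norm_eq_abs, abs_mul, abs_of_nonneg hx.1]
        calc |log x| * |AA r ψ x| ≤ |log x| * (C * x) :=
              mul_le_mul_of_nonneg_left (hC x hx) (abs_nonneg _)
          _ = C * (x * |log x|) := by ring
      · refine ContinuousWithinAt.mul ?_ (continuousOn_AA hr h0 hψ t s hs)
        exact (continuousAt_log h.ne').continuousWithinAt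
    · have := intervalIntegral.continuousOn_primitive_interval hint
      rwa [uIcc_of_le ht.le] at this
  · intro s hs
    have h1 := hasDerivAt_J hr h0 hψ hs.1
    have h2 := (hasDerivAt_log hs.1.ne').mul (hasDerivAt_AA hr h0 hψ hs.1)
    have hc : ContinuousAt (fun x => log x * kk r ψ x) s := by
      refine (continuousAt_log hs.1.ne').mul ?_
      exact (continuousOn_kk hr h0 hψ).continuousAt (Ici_mem_nhds hs.1)
    have h3 : HasDerivAt (fun u => ∫ x in (0:ℝ)..u, log x * kk r ψ x) (log s * kk r ψ s) s := by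
      refine intervalIntegral.integral_hasDerivAt_right
        (intervalIntegrable_log_kk hr h0 hψ le_rfl hs.1.le) ?_ hc
      refine ⟨Ioo 0 t, Ioo_mem_nhds hs.1 hs.2, ?_⟩
      refine ContinuousOn.aestronglyMeasurable ?_ measurableSet_Ioo
      refine ContinuousOn.mul (fun x hx => (continuousAt_log hx.1.ne').continuousWithinAt) ?_
      exact (continuousOn_kk hr h0 hψ).mono fun x hx => hx.1.le
    refine ((h1.sub h2).add h3).congr_deriv ?_
    have := hs.1.ne'
    field_simp
    ring
  · exact intervalIntegrable_const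

theorem posLog_div_eq {t x : ℝ} (ht : 0 < t) (hx : 0 < x) (h : x ≤ t) :
    log⁺ (t / x) = log t - log x := by
  rw [posLog_eq_log, log_div ht.ne' hx.ne']
  rw [abs_of_pos (div_pos ht hx), le_div_iff₀ hx]
  linarith

theorem posLog_div_eq_zero {t x : ℝ} (ht : 0 ≤ t) (h : t ≤ x) : log⁺ (t / x) = 0 := by
  rw [posLog_eq_zero_iff]
  rcases (ht.trans h).eq_or_lt with h2 | h2
  · rw [← h2]; simp
  · rw [abs_of_nonneg (div_nonneg ht h2.le)]
    exact div_le_one_of_le₀ h h2.le

theorem posLog_kk (hr : 0 < r) (h0 : 0 < ψ) (hψ : ψ < π) {t M : ℝ} (ht : 0 ≤ t) (hM : t ≤ M) :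
    IntervalIntegrable (fun x => log⁺ (t / x) * kk r ψ x) volume 0 M ∧
      J r ψ t = 2 * ψ * log r + ∫ x in (0:ℝ)..M, log⁺ (t / x) * kk r ψ x := by
  rcases ht.eq_or_lt with h | h
  · have hz : (fun x => log⁺ (t / x) * kk r ψ x) = fun _ => 0 := by
      funext x; rw [← h]; simp
    rw [hz, ← h, J_zero hr]
    simp
  · have e1 : EqOn (fun x => (log t - log x) * kk r ψ x) (fun x => log⁺ (t / x) * kk r ψ x)
        (Ι 0 t) := by
      intro x hx
      rw [uIoc_of_le ht] at hx
      simp only
      rw [posLog_div_eq h hx.1 hx.2]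
    have e2 : EqOn (fun _ => (0:ℝ)) (fun x => log⁺ (t / x) * kk r ψ x) (Ι t M) := by
      intro x hx
      rw [uIoc_of_le hM] at hx
      simp only
      rw [posLog_div_eq_zero ht hx.1.le, zero_mul]
    have i1 : IntervalIntegrable (fun x => (log t - log x) * kk r ψ x) volume 0 t := by
      have := ((kk_intervalIntegrable hr h0 hψ le_rfl ht).const_mul (log t)).sub
        (intervalIntegrable_log_kk hr h0 hψ le_rfl ht)
      refine this.congr fun x _ => ?_
      ring
    have i1' := i1.congr e1
    have i2' : IntervalIntegrable (fun x => log⁺ (t / x) * kk r ψ x) volume t M :=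
      (intervalIntegrable_const (c := (0:ℝ))).congr e2
    refine ⟨i1'.trans i2', ?_⟩
    rw [J_eq_log hr h0 hψ h, ← intervalIntegral.integral_add_adjacent_intervals i1' i2',
      ← intervalIntegral.integral_congr_ae (Eventually.of_forall fun x hx => e2 hx),
      intervalIntegral.integral_zero, add_zero,
      intervalIntegral.integral_congr_ae (Eventually.of_forall fun x hx => e1 hx)]

end Pool.Agent.H58.EH
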