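import Mathlib
import Pool.Agent.H58.EH.Kern2

/-!
The comparison of arc integrals from the comparison of circular means (MP_ff60c2_an).
-/

set_option autoImplicit false

namespace Pool.Agent.H58.EH

open Real MeasureTheory Set Filter
open scoped Topology Interval

variable {r ψ : ℝ}

/-- The points of the model. -/
noncomputable def bb (θ : ℝ) : ℝ := 2 + 2 * cos θ

theorem bb_nonneg (θ : ℝ) : 0 ≤ bb θ := by unfold bb; linarith [neg_one_le_cos θ]

theorem bb_le (θ : ℝ) : bb θ ≤ 4 := by unfold bb; linarith [cos_le_one θ]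

theorem continuous_bb : Continuous bb := by unfold bb; fun_prop

theorem log_max_eq {x a : ℝ} (hx : 0 < x) (ha : 0 ≤ a) : log (max x a) = log x + log⁺ (a / x) := by
  rcases le_total a x with h | h
  · rw [max_eq_left h, posLog_div_eq_zero ha h, add_zero]
  · rw [max_eq_right h, posLog_div_eq (hx.trans_le h) hx h]; ring

theorem intervalIntegrable_log_max {x : ℝ} (hx : 0 < x) (a b : ℝ) :
    IntervalIntegrable (fun θ => log (max x (bb θ))) volume a b := by
  refine Continuous.intervalIntegrable ?_ _ _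
  refine Continuous.log (continuous_const.max continuous_bb) fun θ => ?_
  exact (lt_of_lt_of_le hx (le_max_left _ _)).ne'

theorem measurable_fun : Measurable fun p : ℝ × ℝ => log⁺ (bb p.2 / p.1) * kk r ψ p.1 := by
  have h1 : Measurable fun p : ℝ × ℝ => log⁺ (bb p.2 / p.1) := by
    have : Measurable fun p : ℝ × ℝ => bb p.2 / p.1 :=
      (continuous_bb.measurable.comp measurable_snd).div measurable_fst
    exact (measurable_const.max (measurable_log.comp this))
  have h2 : Measurable fun p : ℝ × ℝ => kk r ψ p.1 := by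
    unfold kk dd
    fun_prop
  exact h1.mul h2

theorem posLog_mono {a b x : ℝ} (ha : 0 ≤ a) (hab : a ≤ b) (hx : 0 < x) :
    log⁺ (a / x) ≤ log⁺ (b / x) := by
  refine posLog_le_posLog (div_nonneg ha hx.le) ?_
  gcongr

theorem integrable_prod (hr : 0 < r) (h0 : 0 < ψ) (hψ : ψ < π) {M : ℝ} (hM : 4 ≤ M) :
    Integrable (fun p : ℝ × ℝ => log⁺ (bb p.2 / p.1) * kk r ψ p.1)
      ((volume.restrict (Ioc 0 M)).prod (volume.restrict (Ioc 0 (2 * π)))) := by
  have h4 := (posLog_kk hr h0 hψ (by norm_num : (0:ℝ) ≤ 4) hM).1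
  rw [intervalIntegrable_iff_integrableOn_Ioc_of_le (by linarith)] at h4
  have hb : Integrable (fun p : ℝ × ℝ => log⁺ (4 / p.1) * kk r ψ p.1)
      ((volume.restrict (Ioc 0 M)).prod (volume.restrict (Ioc 0 (2 * π)))) :=
    Integrable.comp_fst h4 _
  refine hb.mono' measurable_fun.aestronglyMeasurable ?_
  rw [Measure.prod_restrict]
  refine (ae_restrict_iff' (measurableSet_Ioc.prod measurableSet_Ioc)).2
    (Eventually.of_forall fun p hp => ?_)
  have hx : 0 < p.1 := hp.1.1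
  have hk := kk_nonneg hr h0 hψ hx.le
  rw [norm_mul, Real.norm_eq_abs, Real.norm_eq_abs, abs_of_nonneg posLog_nonneg,
    abs_of_nonneg hk]
  exact mul_le_mul_of_nonneg_right (posLog_mono (bb_nonneg _) (bb_le _) hx) hk

theorem intervalIntegrable_J_bb (hr : 0 < r) (h0 : 0 < ψ) (hψ : ψ < π) :
    IntervalIntegrable (fun θ => J r ψ (bb θ)) volume 0 (2 * π) := by
  refine ContinuousOn.intervalIntegrable ?_
  exact (continuousOn_J hr h0 hψ 4).comp continuous_bb.continuousOn
    fun θ _ => ⟨bb_nonneg θ, bb_le θ⟩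

/-- The mean of `J` over the model. -/
theorem mean_J (hr : 0 < r) (h0 : 0 < ψ) (hψ : ψ < π) {M : ℝ} (hM : 4 ≤ M) :
    IntervalIntegrable (fun x => (∫ θ in (0:ℝ)..(2 * π), log⁺ (bb θ / x)) * kk r ψ x)
        volume 0 M ∧
      ∫ θ in (0:ℝ)..(2 * π), J r ψ (bb θ) = 2 * π * (2 * ψ * log r) +
        ∫ x in (0:ℝ)..M, (∫ θ in (0:ℝ)..(2 * π), log⁺ (bb θ / x)) * kk r ψ x := by
  have hπ : (0:ℝ) ≤ 2 * π := by positivity
  have hM0 : (0:ℝ) ≤ M := by linarith
  have hI := integrable_prod hr h0 hψ hM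
  have e1 : ∀ x, (∫ θ in (0:ℝ)..(2 * π), log⁺ (bb θ / x)) * kk r ψ x =
      ∫ θ in Ioc 0 (2 * π), log⁺ (bb θ / x) * kk r ψ x := by
    intro x
    rw [intervalIntegral.integral_of_le hπ, integral_mul_const]
  constructor
  · rw [intervalIntegrable_iff_integrableOn_Ioc_of_le hM0]
    have := hI.integral_prod_left
    refine this.congr (Eventually.of_forall fun x => ?_)
    exact (e1 x).symm
  · have e2 : ∫ θ in (0:ℝ)..(2 * π), J r ψ (bb θ) = ∫ θ in (0:ℝ)..(2 * π),
        (2 * ψ * log r + ∫ x in Ioc 0 M, log⁺ (bb θ / x) * kk r ψ x) := by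
      refine intervalIntegral.integral_congr fun θ _ => ?_
      change J r ψ (bb θ) = _
      rw [(posLog_kk hr h0 hψ (bb_nonneg θ) ((bb_le θ).trans hM)).2,
        intervalIntegral.integral_of_le hM0]
    rw [e2, intervalIntegral.integral_add intervalIntegrable_const, intervalIntegral.integral_const,
      intervalIntegral.integral_of_le hπ, intervalIntegral.integral_of_le hM0]
    · simp_rw [e1]
      rw [← integral_integral_swap (f := fun x θ => log⁺ (bb θ / x) * kk r ψ x) hI]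
      simp
    · rw [intervalIntegrable_iff_integrableOn_Ioc_of_le hπ]
      exact hI.integral_prod_right

/-- From the comparison of the means to the comparison of the arc integrals. -/
theorem sum_J_le (hr : 0 < r) (h0 : 0 < ψ) (hψ : ψ < π) {n : ℕ} (hn : 0 < n) (a : Fin n → ℝ)
    (ha : ∀ j, 0 ≤ a j)
    (h : ∀ x > 0, (1 / (n:ℝ)) * ∑ j, log (max x (a j)) ≤
      (1 / (2 * π)) * ∫ θ in (0:ℝ)..(2 * π), log (max x (bb θ))) :
    (1 / (n:ℝ)) * ∑ j, J r ψ (a j) ≤ (1 / (2 * π)) * ∫ θ in (0:ℝ)..(2 * π), J r ψ (bb θ) := by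
  have hn' : (0:ℝ) < n := by exact_mod_cast hn
  obtain ⟨M, hM4, hMa⟩ : ∃ M : ℝ, 4 ≤ M ∧ ∀ j, a j ≤ M := by
    refine ⟨4 + ∑ j, a j, ?_, fun j => ?_⟩
    · linarith [Finset.sum_nonneg fun j (_ : j ∈ Finset.univ) => ha j]
    · linarith [Finset.single_le_sum (f := a) (fun j _ => ha j) (Finset.mem_univ j)]
  have hM0 : (0:ℝ) ≤ M := by linarith
  obtain ⟨hi, hJ⟩ := mean_J hr h0 hψ hM4
  have hs : (1 / (n:ℝ)) * ∑ j, J r ψ (a j) = 2 * ψ * log r +
      ∫ x in (0:ℝ)..M, (1 / (n:ℝ)) * ∑ j, log⁺ (a j / x) * kk r ψ x := by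
    rw [intervalIntegral.integral_const_mul, intervalIntegral.integral_finset_sum
      (fun j _ => (posLog_kk hr h0 hψ (ha j) (hMa j)).1)]
    have e : ∀ j, J r ψ (a j) = 2 * ψ * log r + ∫ x in (0:ℝ)..M, log⁺ (a j / x) * kk r ψ x :=
      fun j => (posLog_kk hr h0 hψ (ha j) (hMa j)).2
    simp_rw [e]
    rw [Finset.sum_add_distrib, Finset.sum_const, Finset.card_univ, Fintype.card_fin, nsmul_eq_mul]
    field_simp
  rw [hs, hJ]
  have hint1 : IntervalIntegrable (fun x => (1 / (n:ℝ)) * ∑ j, log⁺ (a j / x) * kk r ψ x)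
      volume 0 M := by
    refine IntervalIntegrable.const_mul ?_ _
    have := IntervalIntegrable.sum (μ := volume) (a := 0) (b := M) Finset.univ
      (f := fun j x => log⁺ (a j / x) * kk r ψ x)
      (fun j _ => (posLog_kk hr h0 hψ (ha j) (hMa j)).1)
    refine this.congr fun x _ => ?_
    simp
  have hmain : ∫ x in (0:ℝ)..M, (1 / (n:ℝ)) * ∑ j, log⁺ (a j / x) * kk r ψ x ≤
      ∫ x in (0:ℝ)..M, (1 / (2 * π)) *
        ((∫ θ in (0:ℝ)..(2 * π), log⁺ (bb θ / x)) * kk r ψ x) := by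
    refine intervalIntegral.integral_mono_on_of_le_Ioo hM0 hint1 (hi.const_mul _) ?_
    intro x hx
    have hk := kk_nonneg hr h0 hψ hx.1.le
    have h1 := h x hx.1
    have e1 : (1 / (n:ℝ)) * ∑ j, log (max x (a j)) =
        log x + (1 / (n:ℝ)) * ∑ j, log⁺ (a j / x) := by
      simp_rw [fun j => log_max_eq hx.1 (ha j)]
      rw [Finset.sum_add_distrib, Finset.sum_const, Finset.card_univ, Fintype.card_fin,
        nsmul_eq_mul]
      field_simp
    have e2 : (1 / (2 * π)) * ∫ θ in (0:ℝ)..(2 * π), log (max x (bb θ)) =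
        log x + (1 / (2 * π)) * ∫ θ in (0:ℝ)..(2 * π), log⁺ (bb θ / x) := by
      have e3 : ∀ θ, log⁺ (bb θ / x) = log (max x (bb θ)) - log x := fun θ => by
        rw [log_max_eq hx.1 (bb_nonneg θ)]; ring
      simp_rw [e3]
      rw [intervalIntegral.integral_sub (intervalIntegrable_log_max hx.1 _ _)
        intervalIntegrable_const, intervalIntegral.integral_const]
      have := pi_pos.ne'
      simp only [sub_zero, smul_eq_mul]
      field_simp
      ring
    rw [e1, e2] at h1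
    have h2 : (1 / (n:ℝ)) * ∑ j, log⁺ (a j / x) ≤
        (1 / (2 * π)) * ∫ θ in (0:ℝ)..(2 * π), log⁺ (bb θ / x) := by linarith
    calc (1 / (n:ℝ)) * ∑ j, log⁺ (a j / x) * kk r ψ x
        = ((1 / (n:ℝ)) * ∑ j, log⁺ (a j / x)) * kk r ψ x := by
          rw [← Finset.sum_mul, mul_assoc]
      _ ≤ ((1 / (2 * π)) * ∫ θ in (0:ℝ)..(2 * π), log⁺ (bb θ / x)) * kk r ψ x :=
          mul_le_mul_of_nonneg_right h2 hk
      _ = _ := by ring
  have hmain2 : ∫ x in (0:ℝ)..M, (1 / (n:ℝ)) * ∑ j, log⁺ (a j / x) * kk r ψ x ≤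
      (1 / (2 * π)) *
        ∫ x in (0:ℝ)..M, (∫ θ in (0:ℝ)..(2 * π), log⁺ (bb θ / x)) * kk r ψ x :=
    hmain.trans_eq (intervalIntegral.integral_const_mul _ _)
  have := pi_pos.ne'
  have e4 : (1 / (2 * π)) * (2 * π * (2 * ψ * log r) +
      ∫ x in (0:ℝ)..M, (∫ θ in (0:ℝ)..(2 * π), log⁺ (bb θ / x)) * kk r ψ x) =
      2 * ψ * log r + (1 / (2 * π)) *
        ∫ x in (0:ℝ)..M, (∫ θ in (0:ℝ)..(2 * π), log⁺ (bb θ / x)) * kk r ψ x := by
    field_simp
  rw [e4]
  linarith

end Pool.Agent.H58.EH
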